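import Mathlib

/-!
# Products over lists of sites, core of the piece PRD
-/

set_option autoImplicit false

open MeasureTheory

namespace Pool.Agent.Run7.h921.SD

theorem prd_core (ν : Measure ℝ) [IsProbabilityMeasure ν] (A : ℝ) (hA : 0 < A) (f : ℝ → ℂ)
    (hf : Continuous f) (hm : ∀ m : ℕ, 1 ≤ m → ‖∫ v, f v ^ m ∂ν‖ ≤ A ^ m) (Γ : Type)
    (Q : List Γ) :
    ‖∫ v, (Q.map fun q => f (v q)).prod ∂(Measure.infinitePi fun _ : Γ => ν)‖ ≤
      A ^ Q.length := by
  classical
  have h1 : ∀ v : Γ → ℝ, (Q.map fun q => f (v q)).prod =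
      (fun w : ((i : Q.toFinset) → ℝ) => ∏ i : Q.toFinset, f (w i) ^ Q.count i.1)
        (Q.toFinset.restrict v) := by
    intro v
    rw [Finset.prod_list_map_count]
    simp only [Finset.restrict]
    exact (Finset.prod_coe_sort Q.toFinset fun i => f (v i) ^ Q.count i).symm
  have h2 : ∫ v, (Q.map fun q => f (v q)).prod ∂(Measure.infinitePi fun _ : Γ => ν) =
      ∏ i : Q.toFinset, ∫ x, f x ^ Q.count i.1 ∂ν := by
    rw [integral_congr_ae (Filter.Eventually.of_forall h1)]
    have h3 := integral_restrict_infinitePi (X := fun _ : Γ => ℝ) (μ := fun _ : Γ => ν)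
      (s := Q.toFinset)
      (f := fun w : ((i : Q.toFinset) → ℝ) => ∏ i : Q.toFinset, f (w i) ^ Q.count i.1)
      (Continuous.aestronglyMeasurable
        (continuous_finsetProd _ fun i _ => (hf.comp (continuous_apply i)).pow _))
    exact h3.trans
      (integral_fintype_prod_eq_prod (fun (i : Q.toFinset) (x : ℝ) => f x ^ Q.count i.1))
  rw [h2, norm_prod]
  calc ∏ i : Q.toFinset, ‖∫ x, f x ^ Q.count i.1 ∂ν‖
      ≤ ∏ i : Q.toFinset, A ^ Q.count i.1 := by
        apply Finset.prod_le_prod
        · intro i _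
          exact norm_nonneg _
        · intro i _
          exact hm _ (List.count_pos_iff.2 (List.mem_toFinset.1 i.2))
    _ = ∏ i ∈ Q.toFinset, A ^ Q.count i := Finset.prod_coe_sort Q.toFinset fun i => A ^ Q.count i
    _ = A ^ Q.length := by
        rw [Finset.prod_pow_eq_pow_sum, List.sum_toFinset_count_eq_length]

end Pool.Agent.Run7.h921.SD
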