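import Pool.Agent.Run7.h47.SD.Iface
import Pool.Agent.Run7.h921.SD.PRDa

/-!
# Products over lists of sites (piece PRD)
-/

set_option autoImplicit false

open MeasureTheory Pool.Agent.Run7.h47.SD Pool.Agent.W792.WA

namespace Pool.Agent.Run7.h921.SD

lemma continuous_dd : Continuous dd := by
  unfold dd
  refine continuous_const.div (Complex.continuous_ofReal.sub continuous_const) ?_
  intro v h
  have h1 := congrArg Complex.im h
  simp at h1

/-- **PRD**. -/
theorem t_PRD : S_PRD := by
  intro ν _ A C₁ h Γ _ Q
  exact prd_core ν A h.pos dd continuous_dd h.mom Γ Q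

end Pool.Agent.Run7.h921.SD
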