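import Pool.Agent.Run7.h47.SD.Iface

/-!
# The effective phase from the symbol of the mean resolvent (piece PSG)
-/

set_option autoImplicit false

open MeasureTheory Pool.Agent.Run7.h47.SD Pool.Agent.W792.WA Pool.Agent.W792.LL

namespace Pool.Agent.Run7.h921.SD

/-- the algebra, `m = (X + i) / (X - i)`, `c` the symbol -/
lemma psg_alg (X c : ℂ) (hX : X - Complex.I ≠ 0)
    (h1 : 1 + (X + Complex.I) / (X - Complex.I) * c ≠ 0)
    (hG : ((X + Complex.I) / (X - Complex.I) - 1) *
      (1 + ((X + Complex.I) / (X - Complex.I) - 1) * c) / (2 * Complex.I) ≠ 0) :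
    c / (1 + (X + Complex.I) / (X - Complex.I) * c) =
      (1 / (((X + Complex.I) / (X - Complex.I) - 1) *
        (1 + ((X + Complex.I) / (X - Complex.I) - 1) * c) / (2 * Complex.I)) - X + Complex.I) /
      (1 / (((X + Complex.I) / (X - Complex.I) - 1) *
        (1 + ((X + Complex.I) / (X - Complex.I) - 1) * c) / (2 * Complex.I)) - X - Complex.I) := by
  set m : ℂ := (X + Complex.I) / (X - Complex.I) with hm
  set G : ℂ := (m - 1) * (1 + (m - 1) * c) / (2 * Complex.I) with hGd
  have hI : (2 * Complex.I : ℂ) ≠ 0 := by simp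
  have hm1 : m - 1 = 2 * Complex.I / (X - Complex.I) := by
    rw [hm, eq_div_iff hX, sub_mul, div_mul_cancel₀ _ hX]
    ring
  have hm1' : 1 - m ≠ 0 := by
    intro h
    have h2 : m - 1 = 0 := by linear_combination -h
    rw [h2] at hm1
    exact hI ((div_eq_zero_iff.1 hm1.symm).resolve_right hX)
  have hGX : G * (X - Complex.I) = 1 + (m - 1) * c := by
    rw [hGd, hm1]
    field_simp
  have hmX : m * (X - Complex.I) = X + Complex.I := by
    rw [hm, div_mul_cancel₀ _ hX]
  have hGX2 : G * (X + Complex.I) = m * (1 + (m - 1) * c) := by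
    rw [← hmX, ← hGX]
    ring
  have e1 : 1 / G - X + Complex.I = (1 - m) * c / G := by
    rw [eq_div_iff hG]
    have : (1 / G - X + Complex.I) * G = 1 - G * (X - Complex.I) := by
      field_simp
      ring
    rw [this, hGX]
    ring
  have e2 : 1 / G - X - Complex.I = (1 - m) * (1 + m * c) / G := by
    rw [eq_div_iff hG]
    have : (1 / G - X - Complex.I) * G = 1 - G * (X + Complex.I) := by
      field_simp
      ring
    rw [this, hGX2]
    ring
  rw [e1, e2, div_div_div_cancel_right₀ hG, mul_div_mul_left _ _ hm1']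

/-- **PSG**. -/
theorem t_PSG (hPSI : S_PSI) (hCX : S_CX) : S_PSG := by
  intro ν _ d c X hc hX k hG
  have hne : ∀ k, X k - Complex.I ≠ 0 := by
    intro k h
    have h1 := congrArg Complex.im h
    have h2 := hX k
    simp at h1
    linarith
  have hcay : ∀ k, cayx (X k) 0 = (X k + Complex.I) / (X k - Complex.I) := by
    intro k
    simp [cayx]
  have hcont : Continuous fun k => cayx (X k) 0 := by
    simp only [hcay]
    exact (X.continuous.add continuous_const).div (X.continuous.sub continuous_const) hne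
  have hm : ∀ k, (toC fun k => cayx (X k) 0 : C(UnitAddTorus (Fin d), ℂ)) k = cayx (X k) 0 := by
    intro k
    unfold toC
    rw [dif_pos hcont]
    rfl
  obtain ⟨q, hq0, hq1, hq⟩ := hCX.2.2.1 0 ‖X‖ c hc
  have hnorm : ‖(toC fun k => cayx (X k) 0 : C(UnitAddTorus (Fin d), ℂ))‖ ≤ q := by
    rw [ContinuousMap.norm_le _ hq0]
    intro k
    rw [hm]
    exact hq (X k) 0 (X.norm_coe_le_norm k) (hX k) (by simp)
  obtain ⟨h1, h2, -, -, -, -⟩ := (hPSI ν d q _ _ hq0 hq1 hnorm hnorm).1 k
  have hGX : GX ν X k = (cayx (X k) 0 - 1) *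
      (1 + (cayx (X k) 0 - 1) * csym ν (toC fun k => cayx (X k) 0) k) / (2 * Complex.I) := by
    unfold GX
    have hc2 : Continuous fun k => (cayx (X k) 0 - 1) *
        (1 + (cayx (X k) 0 - 1) * csym ν (toC fun k => cayx (X k) 0) k) / (2 * Complex.I) := by
      refine Continuous.div_const ?_ _
      refine (hcont.sub continuous_const).mul (continuous_const.add ?_)
      exact (hcont.sub continuous_const).mul (ContinuousMap.continuous _)
    unfold toC
    rw [dif_pos (by simpa [toC] using hc2)]
    rfl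
  rw [h2, hGX]
  rw [hGX] at hG
  rw [hm] at h1 ⊢
  rw [hcay] at h1 hG ⊢
  have := psg_alg (X k) (csym ν (toC fun k => cayx (X k) 0) k) (hne k) h1 hG
  rw [this]
  unfold cayx
  simp

end Pool.Agent.Run7.h921.SD
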